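import Pool.Agent.H54.WM.Targets

/-!
# CHC: a choice function in HOD
-/

open Ordinal Cardinal Order Set
open scoped ZFSet

universe u

namespace Pool.Agent.H93.WM.CHC

open _root_.HD Pool.Agent.H54.WM

/-! ## Satisfaction in HOD of the values of functions is definable -/

/-- the value of a variable or of a function at an entry of a variable -/
noncomputable def ev : ℕ ⊕ (ZFSet.{u} × ℕ × ℕ) → (ℕ → ZFSet.{u}) → ZFSet.{u}
  | .inl i, v => v i
  | .inr (g, m, i), v => ap g (pr m (v i))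

/-- the renaming under a quantifier -/
def sh : ℕ ⊕ (ZFSet.{u} × ℕ × ℕ) → ℕ ⊕ (ZFSet.{u} × ℕ × ℕ)
  | .inl i => .inl (i + 1)
  | .inr (g, m, i) => .inr (g, m, i + 1)

/-- the functions are ordinal definable -/
def Ok : ℕ ⊕ (ZFSet.{u} × ℕ × ℕ) → Prop
  | .inl _ => True
  | .inr (g, _, _) => OD g

theorem ev_sh (a : ℕ ⊕ (ZFSet.{u} × ℕ × ℕ)) (v : ℕ → ZFSet.{u}) :
    ev (sh a) v = ev a (fun n => v (n + 1)) := by
  rcases a with i | ⟨g, m, i⟩ <;> rfl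

theorem ok_sh {a : ℕ ⊕ (ZFSet.{u} × ℕ × ℕ)} (h : Ok a) : Ok (sh a) := by
  rcases a with i | ⟨g, m, i⟩
  · trivial
  · exact h

theorem dz_ev {a : ℕ ⊕ (ZFSet.{u} × ℕ × ℕ)} (h : Ok a) (s : ℕ) :
    DZ.{u} fun v => v s = ev a v := by
  rcases a with i | ⟨g, m, i⟩
  · exact DZ.eq s i
  · have hg : OD g := h
    refine (DZ.od (R := fun b v => ∃ x, x = pr m (v i) ∧ v s = ap b x) hg
      (DZ.ex (R := fun x v => x = pr m (v (i + 1)) ∧ v (s + 1) = ap (v 0) x)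
        ((D0.pr m 0 (i + 2)).dz.and (D0.ap (s + 2) 1 0).dz))).congr fun v => ?_
    simp [ev]

theorem dz_sat (φ : Fml) : ∀ a : ℕ → ℕ ⊕ (ZFSet.{u} × ℕ × ℕ), (∀ n, Ok (a n)) →
    DZ.{u} fun v => Sat HOD φ fun n => ev (a n) v := by
  induction φ with
  | mem i l =>
    intro a ha
    refine (DZ.ex (R := fun x v => x = ev (a i) v ∧ ∃ y, y = ev (a l) v ∧ x ∈ y)
      (DZ.and ?_ (DZ.ex (R := fun y v => y = ev (a l) (fun n => v (n + 1)) ∧ v 0 ∈ y)
        (DZ.and ?_ (DZ.mem 1 0))))).congr fun v => ?_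
    · have := dz_ev (ok_sh (ha i)) 0
      simpa only [ev_sh] using this
    · have := dz_ev (ok_sh (ok_sh (ha l))) 0
      simpa only [ev_sh] using this
    · show ev (a i) v ∈ ev (a l) v ↔ _
      simp
  | eq i l =>
    intro a ha
    refine (DZ.ex (R := fun x v => x = ev (a i) v ∧ x = ev (a l) v) (DZ.and ?_ ?_)).congr
      fun v => ?_
    · have := dz_ev (ok_sh (ha i)) 0
      simpa only [ev_sh] using this
    · have := dz_ev (ok_sh (ha l)) 0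
      simpa only [ev_sh] using this
    · show ev (a i) v = ev (a l) v ↔ _
      simp
  | neg φ ih => exact fun a ha => (ih a ha).not
  | and φ ψ ih1 ih2 => exact fun a ha => (ih1 a ha).and (ih2 a ha)
  | ex φ ih =>
    intro a ha
    refine DZ.ex (R := fun x v => HOD x ∧ Sat HOD φ (cons x fun n => ev (a n) v))
      ((Pool.Agent.H3.HD.DM.dz_hod 0).and ?_)
    have h := ih (fun n => Nat.casesOn n (.inl 0) fun k => sh (a k)) (by
      rintro (_ | n)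
      · trivial
      · exact ok_sh (ha n))
    refine h.congr fun v => ?_
    have e : (cons (v 0) fun n => ev (a n) fun n => v (n + 1)) =
        fun n => ev ((fun n => Nat.casesOn n (.inl 0) fun k => sh (a k) :
          ℕ → ℕ ⊕ (ZFSet.{u} × ℕ × ℕ)) n) v := by
      funext n
      rcases n with _ | n
      · rfl
      · exact (ev_sh (a n) v).symm
    rw [e]

/-- the formula of the target -/
def S (φ : Fml) (f : ℕ → ZFSet.{u}) (y w : ZFSet.{u}) : Prop :=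
  Sat HOD φ (cons y fun n => ap (f n) (pr n w))

theorem dz_S (φ : Fml) {f : ℕ → ZFSet.{u}} (hf : ∀ n, HOD (f n)) (i l : ℕ) :
    DZ.{u} fun v => S φ f (v i) (v l) := by
  have h := dz_sat φ (fun n => Nat.casesOn n (.inl i) fun k => .inr (f k, k, l)) (by
    rintro (_ | n)
    · trivial
    · exact (hf n).od)
  refine h.congr fun v => ?_
  unfold S
  have e : (cons (v i) fun n => ap (f n) (pr n (v l))) =
      fun n => ev ((fun n => Nat.casesOn n (.inl i) fun k => .inr (f k, k, l) :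
        ℕ → ℕ ⊕ (ZFSet.{u} × ℕ × ℕ)) n) v := by
    funext n
    rcases n with _ | n <;> rfl
  rw [e]

/-! ## The choice function -/

section

variable (en : Ordinal.{u} → ZFSet.{u}) (φ : Fml) (f : ℕ → ZFSet.{u})

/-- `c` is the code of a witness for `w` -/
def Sel (w : ZFSet.{u}) (c : Ordinal.{u}) : Prop := HOD (en c) ∧ S φ f (en c) w

/-- the witness with the least code -/
noncomputable def yw (w : ZFSet.{u}) : ZFSet.{u} := en (sInf {c | Sel en φ f w c})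

/-- the choice function -/
noncomputable def ch (ξ : Ordinal.{u}) : ZFSet.{u} :=
  ZFSet.sep (fun p => ∃ w ∈ HV ξ, (∃ c, Sel en φ f w c) ∧ p = ZFSet.pair w (yw en φ f w))
    (ZFSet.range fun w : {w // w ∈ HV ξ} => ZFSet.pair w.1 (yw en φ f w.1))

variable {en φ f}

theorem mem_ch {ξ : Ordinal.{u}} {p : ZFSet.{u}} : p ∈ ch en φ f ξ ↔
    ∃ w ∈ HV ξ, (∃ c, Sel en φ f w c) ∧ p = ZFSet.pair w (yw en φ f w) := by
  unfold ch
  rw [ZFSet.mem_sep]
  refine ⟨fun h => h.2, fun h => ⟨?_, h⟩⟩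
  obtain ⟨w, hw, -, rfl⟩ := h
  rw [ZFSet.mem_range]
  exact ⟨⟨w, hw⟩, rfl⟩

theorem ap_ch {ξ : Ordinal.{u}} {w : ZFSet.{u}} (hw : w ∈ HV ξ) (h : ∃ c, Sel en φ f w c) :
    ap (ch en φ f ξ) w = yw en φ f w := by
  ext z
  rw [mem_ap]
  constructor
  · rintro ⟨y, hy, hz⟩
    obtain ⟨w', -, -, h1⟩ := mem_ch.1 hy
    obtain ⟨rfl, rfl⟩ := ZFSet.pair_inj.1 h1
    exact hz
  · intro hz
    exact ⟨_, mem_ch.2 ⟨w, hw, h, rfl⟩, hz⟩

theorem sel_yw {w : ZFSet.{u}} (h : ∃ c, Sel en φ f w c) :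
    Sel en φ f w (sInf {c | Sel en φ f w c}) := csInf_mem (s := {c | Sel en φ f w c}) h

/-- description of the elements of the choice function -/
theorem mem_ch' {ξ : Ordinal.{u}} {p : ZFSet.{u}} : p ∈ ch en φ f ξ ↔
    ∃ w, w ∈ HV ξ ∧ ∃ c y : ZFSet.{u}, (c.IsOrdinal ∧ y = en c.rank) ∧ (HOD y ∧ S φ f y w) ∧
      (∀ d ∈ c, ∀ z, d.IsOrdinal ∧ z = en d.rank → ¬ (HOD z ∧ S φ f z w)) ∧
        p = ZFSet.pair w y := by
  rw [mem_ch]
  refine exists_congr fun w => and_congr_right fun hw => ?_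
  constructor
  · rintro ⟨h, rfl⟩
    refine ⟨(sInf {c | Sel en φ f w c}).toZFSet, yw en φ f w, ⟨ZFSet.isOrdinal_toZFSet _, ?_⟩,
      sel_yw h, ?_, rfl⟩
    · rw [rank_toZFSet]
      rfl
    · rintro d hd z ⟨-, rfl⟩ h1
      obtain ⟨b, hb, rfl⟩ := mem_toZFSet_iff.1 hd
      rw [rank_toZFSet] at h1
      exact absurd (csInf_le' (s := {c | Sel en φ f w c}) h1) (not_le.2 hb)
  · rintro ⟨c, y, ⟨hc, rfl⟩, h1, h2, rfl⟩
    have h3 : Sel en φ f w c.rank := h1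
    refine ⟨⟨_, h3⟩, ?_⟩
    have h4 : sInf {c | Sel en φ f w c} = c.rank := by
      refine le_antisymm (csInf_le' (s := {c | Sel en φ f w c}) h3) (le_csInf ⟨_, h3⟩ ?_)
      intro b hb
      by_contra hlt
      rw [not_le] at hlt
      refine h2 b.toZFSet ?_ (en b) ⟨ZFSet.isOrdinal_toZFSet _, by rw [rank_toZFSet]⟩ hb
      have h5 : b.toZFSet ∈ c.rank.toZFSet := toZFSet_mem_toZFSet_iff.2 hlt
      rwa [hc.toZFSet_rank_eq] at h5
    unfold yw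
    rw [h4]

theorem hod_ch (hen : EN en) (hf : ∀ n, HOD (f n)) (ξ : Ordinal.{u}) :
    HOD (ch en φ f ξ) := by
  have he : ∀ i l : ℕ, DZ.{u} fun v => (v i).IsOrdinal ∧ v l = en (v i).rank := fun i l =>
    hen.dz.ren fun n => if n = 0 then i else l
  refine hod_iff.2 ⟨?_, fun z hz => ?_⟩
  · refine OD.of_mem (P := fun v => ∃ w, w ∈ HV ξ ∧ ∃ c y : ZFSet.{u},
      (c.IsOrdinal ∧ y = en c.rank) ∧ (HOD y ∧ S φ f y w) ∧
      (∀ d ∈ c, ∀ z, d.IsOrdinal ∧ z = en d.rank → ¬ (HOD z ∧ S φ f z w)) ∧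
        v 0 = ZFSet.pair w y) ?_ fun v => by rw [mem_ch']
    refine DZ.ex (R := fun w v => w ∈ HV ξ ∧ ∃ c y : ZFSet.{u},
      (c.IsOrdinal ∧ y = en c.rank) ∧ (HOD y ∧ S φ f y w) ∧
      (∀ d ∈ c, ∀ z, d.IsOrdinal ∧ z = en d.rank → ¬ (HOD z ∧ S φ f z w)) ∧
        v 0 = ZFSet.pair w y) ?_
    refine (DZ.od (R := fun b v => v 0 ∈ b) (hod_HV ξ).od (DZ.mem 1 0)).and ?_
    refine DZ.ex (R := fun c v => ∃ y : ZFSet.{u},
      (c.IsOrdinal ∧ y = en c.rank) ∧ (HOD y ∧ S φ f y (v 0)) ∧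
      (∀ d ∈ c, ∀ z, d.IsOrdinal ∧ z = en d.rank → ¬ (HOD z ∧ S φ f z (v 0))) ∧
        v 1 = ZFSet.pair (v 0) y) ?_
    refine DZ.ex (R := fun y v =>
      ((v 0).IsOrdinal ∧ y = en (v 0).rank) ∧ (HOD y ∧ S φ f y (v 1)) ∧
      (∀ d ∈ v 0, ∀ z, d.IsOrdinal ∧ z = en d.rank → ¬ (HOD z ∧ S φ f z (v 1))) ∧
        v 2 = ZFSet.pair (v 1) y) ?_
    refine (he 1 0).and (((Pool.Agent.H3.HD.DM.dz_hod 0).and (dz_S φ hf 0 2)).and
      (DZ.and ?_ (D0.pair 3 2 0).dz))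
    refine DZ.allMem (R := fun d v => ∀ z, d.IsOrdinal ∧ z = en d.rank →
      ¬ (HOD z ∧ S φ f z (v 2))) 1 ?_
    refine DZ.all (R := fun z v => (v 0).IsOrdinal ∧ z = en (v 0).rank →
      ¬ (HOD z ∧ S φ f z (v 3))) ?_
    exact (he 1 0).imp ((Pool.Agent.H3.HD.DM.dz_hod 0).and (dz_S φ hf 0 4)).not
  · obtain ⟨w, hw, h, rfl⟩ := mem_ch.1 hz
    exact (mem_HV.1 hw).2.pair (sel_yw h).1

end

theorem X : T_CHC.{u} := by
  intro ξ φ f hf
  obtain ⟨en, hen⟩ := All.en.{u}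
  refine ⟨ch en φ f ξ, hod_ch hen hf ξ, ?_⟩
  rintro w hw ⟨y, hy, hs⟩
  obtain ⟨c, rfl⟩ := (hen.od y).1 hy.od
  have h : ∃ c, Sel en φ f w c := ⟨c, hy, hs⟩
  rw [ap_ch hw h]
  exact sel_yw h

end Pool.Agent.H93.WM.CHC
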