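import Pool.Agent.H54.WM.Targets

/-!
# WFT: the structure of the terms is well-founded
-/

open Ordinal Cardinal Order Set
open scoped ZFSet

universe u

namespace Pool.Agent.H93.WM.WFT

open _root_.HD Pool.Agent.H54.WM

theorem X (hTSH : T_TSH.{u}) : T_WFT.{u} := by
  intro ξ κ j hB hCC
  rw [wellFounded_iff_isEmpty_descending_chain]
  refine ⟨fun ⟨s, hs⟩ => ?_⟩
  have hsv : ∀ s t : Tm κ, ∀ n, HOD (sv [s.f, t.f] n) := by
    intro s t n
    rcases n with _ | _ | n
    · exact s.hf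
    · exact t.hf
    · exact hod_empty
  obtain ⟨c, hc, h⟩ := hCC (fun n => (s n).b)
    (fun n => TS ξ (.mem 0 1) (sv [(s (n + 1)).f, (s n).f])) (fun n => (s n).hb)
    (fun n => ⟨hTSH ξ _ _ (hsv _ _), fun w hw => HV_sub ξ (mem_TS.1 hw).1⟩) hs
  have h1 : ∀ n, ap (s (n + 1)).f (c (n + 1)) ∈ ap (s n).f (c n) := by
    intro n
    have h2 := (mem_TS.1 (h n)).2
    have h3 : ap (s (n + 1)).f (pr 0 (tup [c (n + 1), c n])) ∈
        ap (s n).f (pr 1 (tup [c (n + 1), c n])) := h2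
    rw [pr_tup, pr_tup] at h3
    exact h3
  have hw : WellFounded fun x y : ZFSet.{u} => x ∈ y := ZFSet.mem_wf
  rw [wellFounded_iff_isEmpty_descending_chain] at hw
  exact hw.false ⟨fun n => ap (s n).f (c n), h1⟩

end Pool.Agent.H93.WM.WFT
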